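import Mathlib

/-! A Leonard triple of diameter two whose third member is not in the span of `I, Z, X, ZX`. -/

set_option autoImplicit false

namespace Pool.Agent.Results.MP_a7ee28_al.DimThree

open Matrix

section defs
variable {K : Type} [Field K] {n : ℕ}

/-- Irreducible tridiagonal matrices. -/
def IrrTri (M : Matrix (Fin n) (Fin n) K) : Prop :=
  ∀ i j : Fin n, ((i : ℕ) + 1 < j ∨ (j : ℕ) + 1 < i → M i j = 0) ∧
    ((i : ℕ) + 1 = j ∨ (j : ℕ) + 1 = i → M i j ≠ 0)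

/-- The matrix of the map `M` in the basis formed by the columns of `P`. -/
def inB (P : (Matrix (Fin n) (Fin n) K)ˣ) (M : Matrix (Fin n) (Fin n) K) :
    Matrix (Fin n) (Fin n) K := P⁻¹.val * M * P.val

def LeonardPair (A B : Matrix (Fin n) (Fin n) K) : Prop :=
  (∃ P, IrrTri (inB P A) ∧ (inB P B).IsDiag) ∧ ∃ P, IrrTri (inB P B) ∧ (inB P A).IsDiag

def LeonardTriple (A B C : Matrix (Fin n) (Fin n) K) : Prop :=
  (∃ P, (inB P A).IsDiag ∧ IrrTri (inB P B) ∧ IrrTri (inB P C)) ∧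
    (∃ P, (inB P B).IsDiag ∧ IrrTri (inB P A) ∧ IrrTri (inB P C)) ∧
      ∃ P, (inB P C).IsDiag ∧ IrrTri (inB P A) ∧ IrrTri (inB P B)

/-- One equitable relation. -/
def QRel (q : K) (S T : Matrix (Fin n) (Fin n) K) : Prop :=
  (q - q⁻¹)⁻¹ • (q • (S * T) - q⁻¹ • (T * S)) = 1

/-- `X, Xi, Y, Z` make `K ^ n` an irreducible module for the equitable presentation. -/
def IrrMod (q : K) (X Xi Y Z : Matrix (Fin n) (Fin n) K) : Prop :=
  X * Xi = 1 ∧ Xi * X = 1 ∧ QRel q X Y ∧ QRel q Y Z ∧ QRel q Z X ∧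
    ∀ W : Submodule K (Fin n → K),
      (∀ w ∈ W, X *ᵥ w ∈ W ∧ Xi *ᵥ w ∈ W ∧ Y *ᵥ w ∈ W ∧ Z *ᵥ w ∈ W) → W = ⊥ ∨ W = ⊤

/-- `M` is a linear combination of `I, S, T, ST`. -/
def InSpan (M S T : Matrix (Fin n) (Fin n) K) : Prop :=
  ∃ a b c d : K, M = a • (1 : Matrix (Fin n) (Fin n) K) + b • S + c • T + d • (S * T)

/-- `t` is an antiautomorphism of the matrix algebra that fixes `A` and `B`. -/
def IsDagger (A B : Matrix (Fin n) (Fin n) K)
    (t : Matrix (Fin n) (Fin n) K ≃ₗ[K] Matrix (Fin n) (Fin n) K) : Prop :=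
  t 1 = 1 ∧ (∀ M N, t (M * N) = t N * t M) ∧ t A = A ∧ t B = B

end defs

abbrev Mt := Matrix (Fin 3) (Fin 3) ℚ
def x : Mt := !![4, 0, 0; 0, 1, 0; 0, 0, 1/4]
def xi : Mt := !![1/4, 0, 0; 0, 1, 0; 0, 0, 4]
def y : Mt := !![1/4, 0, 0; 3/2, 1, 0; 0, 15/4, 4]
def z : Mt := !![1/4, -15/8, 0; 0, 1, -3; 0, 0, 4]
def A : Mt := !![5/4, 0, 0; 3, 2, 0; 0, 75/16, 5]
def C : Mt := !![-279/128, 225/64, 0; -45/8, -2439/128, -45/8; 0, 1125/128, -279/128]
def P1 : Mtˣ := ⟨!![1, 0, 0; -4, -16, 0; 5, 25, 1], !![1, 0, 0; -1/4, -1/16, 0; 5/4, 25/16, 1],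
  by decide +kernel, by decide +kernel⟩
def P2 : Mtˣ := ⟨!![1, -5, 1; 0, 2, -2; 0, 0, 2], !![1, 5/2, 2; 0, 1/2, 1/2; 0, 0, 1/2],
  by decide +kernel, by decide +kernel⟩
def P3 : Mtˣ := ⟨!![2, 10, -1; -4, -28, 0; 5, 25, 1],
  !![1/2, 5/8, 1/2; -1/14, -1/8, -1/14; -5/7, 0, 2/7], by decide +kernel, by decide +kernel⟩

instance (M : Mt) : Decidable (IrrTri M) := by unfold IrrTri; infer_instance
instance (M : Mt) : Decidable M.IsDiag := by unfold IsDiag Pairwise; infer_instance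

theorem triple : LeonardTriple A z C :=
  ⟨⟨P1, by decide +kernel⟩, ⟨P2, by decide +kernel⟩, ⟨P3, by decide +kernel⟩⟩

theorem irr (W : Submodule ℚ (Fin 3 → ℚ))
    (h : ∀ w ∈ W, x *ᵥ w ∈ W ∧ xi *ᵥ w ∈ W ∧ y *ᵥ w ∈ W ∧ z *ᵥ w ∈ W) : W = ⊥ ∨ W = ⊤ := by
  have hs : ∀ w ∈ W, ∀ i, w i ≠ 0 → (Pi.single i 1 : Fin 3 → ℚ) ∈ W := fun w hw i hi => by
    have key : ∀ a b c : ℚ, (a • (1 : Mt) + b • x + c • xi) *ᵥ w ∈ W := fun a b c => by
      simp only [add_mulVec, smul_mulVec, one_mulVec]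
      exact W.add_mem (W.add_mem (W.smul_mem _ hw) (W.smul_mem _ (h w hw).1))
        (W.smul_mem _ (h w hw).2.1)
    have e : ∃ a b c : ℚ, a • (1 : Mt) + b • x + c • xi = diagonal (Pi.single i 1) := by
      fin_cases i
      exacts [⟨-4/9, 16/45, 4/45, by decide +kernel⟩, ⟨17/9, -4/9, -4/9, by decide +kernel⟩,
        ⟨-4/9, 4/45, 16/45, by decide +kernel⟩]
    obtain ⟨a, b, c, e⟩ := e
    convert W.smul_mem (w i)⁻¹ (e ▸ key a b c) using 1
    ext j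
    by_cases hj : j = i <;> simp [mulVec_diagonal, hj, hi]
  have h01 := fun e => hs _ (h (Pi.single 0 1) e).2.2.1 1 (by decide +kernel)
  have h12 := fun e => hs _ (h (Pi.single 1 1) e).2.2.1 2 (by decide +kernel)
  have h10 := fun e => hs _ (h (Pi.single 1 1) e).2.2.2 0 (by decide +kernel)
  have h21 := fun e => hs _ (h (Pi.single 2 1) e).2.2.2 1 (by decide +kernel)
  rw [or_iff_not_imp_left]
  intro hW
  obtain ⟨w, hw, hw0⟩ := Submodule.exists_mem_ne_zero_of_ne_bot hW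
  obtain ⟨i, hi⟩ := Function.ne_iff.1 hw0
  have h1 : (Pi.single 1 1 : Fin 3 → ℚ) ∈ W := by
    have := hs w hw i hi
    fin_cases i
    exacts [h01 this, this, h21 this]
  rw [eq_top_iff, ← (Pi.basisFun ℚ (Fin 3)).span_eq, Submodule.span_le]
  rintro _ ⟨j, rfl⟩
  rw [Pi.basisFun_apply]
  fin_cases j
  exacts [h10 h1, h1, h12 h1]

def S : Mt := !![1, -4, 5; -4, 48/5, -10; 5, -10, 10]
def Si : Mt := !![1, 5/2, 2; 5/2, 15/4, 5/2; 2, 5/2, 8/5]
theorem h1 : S * Si = 1 := by decide +kernel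
theorem h2 : Si * S = 1 := by decide +kernel
theorem h3 : Sᵀ = S := by decide +kernel
theorem h4 : Siᵀ = Si := by decide +kernel

def dg : Mt ≃ₗ[ℚ] Mt where
  toFun M := S * Mᵀ * Si
  invFun M := S * Mᵀ * Si
  map_add' M N := by simp [mul_add, add_mul]
  map_smul' c M := by simp
  left_inv M := by
    simp only [transpose_mul, h3, h4, transpose_transpose, ← mul_assoc, h1, one_mul]
    rw [mul_assoc, h1, mul_one]
  right_inv M := by
    simp only [transpose_mul, h3, h4, transpose_transpose, ← mul_assoc, h1, one_mul]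
    rw [mul_assoc, h1, mul_one]

theorem result : ∃ (K : Type) (_ : Field K) (q : K) (A B C X Xi Y Z : Matrix (Fin 3) (Fin 3) K),
    LeonardPair A B ∧ q ≠ 0 ∧ (∀ m : ℕ, 0 < m → q ^ m ≠ 1) ∧ IrrMod q X Xi Y Z ∧
      InSpan A X Y ∧ InSpan B Y Z ∧ LeonardTriple A B C ∧ ¬InSpan C Z X ∧
        (∃ t, IsDagger A B t) ∧ ∀ t, IsDagger A B t → ¬InSpan (t C) Z X := by
  have hC : ¬InSpan C z x := by
    rintro ⟨a, b, c, d, h⟩
    have := congrFun (congrFun h 1) 0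
    simp [C, z, x] at this
  refine ⟨ℚ, inferInstance, 2, A, z, C, x, xi, y, z, ⟨⟨P2, by decide +kernel⟩, ⟨P1, by decide +kernel⟩⟩,
    two_ne_zero, fun m hm => (one_lt_pow₀ one_lt_two hm.ne').ne', ⟨by decide +kernel,
    by decide +kernel, by unfold QRel; decide +kernel, by unfold QRel; decide +kernel,
    by unfold QRel; decide +kernel, irr⟩, ⟨0, 0, 1, 1, by decide +kernel⟩,
    ⟨0, 0, 1, 0, by simp⟩, triple, hC, ?_, fun t ht => ?_⟩
  · refine ⟨dg, by decide +kernel, fun M N => ?_, by decide +kernel, by decide +kernel⟩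
    change S * (M * N)ᵀ * Si = S * Nᵀ * Si * (S * Mᵀ * Si)
    simp only [transpose_mul, mul_assoc]
    rw [← mul_assoc Si S, h2, one_mul]
  · have e : C = (A * z + z * A) - (25/8 : ℚ) • A - (41/8 : ℚ) • z + (1025/128 : ℚ) • (1 : Mt) := by
      decide +kernel
    have : t C = C := by
      conv_lhs => rw [e]
      simp only [map_add, map_sub, map_smul, ht.1, ht.2.1, ht.2.2.1, ht.2.2.2]
      rw [add_comm (z * A), ← e]
    rwa [this]

end Pool.Agent.Results.MP_a7ee28_al.DimThree
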